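import Mathlib

/-!
Independence number against even-distance counts and local independence.
-/

namespace Pool.Agent.Results.MP_c843e9_co.EvenDistanceBound

open SimpleGraph Finset

variable {V : Type*}

/-- The number of vertices at even distance from `v` (the vertex `v` itself counts). -/
noncomputable def dEven (G : SimpleGraph V) (v : V) : ℕ := Nat.card {u : V // Even (G.dist v u)}

/-- The independence number of the subgraph induced on the open neighbourhood of `v`. -/
noncomputable def lam (G : SimpleGraph V) (v : V) : ℕ := (G.induce (G.neighborSet v)).indepNum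

/-- a neighbour one step closer to `v` -/
theorem exists_parent {G : SimpleGraph V} (hG : G.Connected) {v w : V} (h : w ≠ v) :
    ∃ u, G.Adj u w ∧ G.dist v w = G.dist v u + 1 := by
  obtain ⟨p, hp⟩ := hG.exists_walk_length_eq_dist v w
  have hnil : ¬ p.Nil := fun hn => h (hn.eq).symm
  refine ⟨p.penultimate, p.adj_penultimate hnil, ?_⟩
  have hadj := p.adj_penultimate hnil
  have h1 : G.dist v p.penultimate ≤ p.dropLast.length := dist_le _
  have h2 : p.dropLast.length + 1 = p.length := by
    have := p.length_dropLast_add_one hnil
    omega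
  have h3 : G.dist v w ≤ G.dist v p.penultimate + G.dist p.penultimate w :=
    hG.dist_triangle
  have h4 : G.dist p.penultimate w = 1 := dist_eq_one_iff_adj.2 hadj
  omega

theorem card_le_lam [Fintype V] {G : SimpleGraph V} {u : V} {J : Finset V}
    (hJ : G.IsIndepSet J) (hN : ∀ w ∈ J, G.Adj u w) : J.card ≤ lam G u := by
  classical
  unfold lam
  let J' : Finset (G.neighborSet u) := J.attach.map
    ⟨fun w => ⟨w.1, hN w.1 w.2⟩, fun a b hab => by
      apply Subtype.ext
      simpa using congrArg Subtype.val hab⟩
  have hc : J'.card = J.card := by simp [J']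
  rw [← hc]
  apply IsIndepSet.card_le_indepNum
  intro a ha b hb hab hadj
  simp only [J', coe_map, Set.mem_image, mem_coe, mem_attach,
    true_and, Subtype.exists] at ha hb
  obtain ⟨x, hx, rfl⟩ := ha
  obtain ⟨y, hy, rfl⟩ := hb
  have hxy : x ≠ y := by
    rintro rfl
    exact hab rfl
  exact hJ hx hy hxy hadj

theorem lam_le_iSup [Fintype V] (G : SimpleGraph V) (u : V) : lam G u ≤ ⨆ v, lam G v :=
  le_ciSup (Set.finite_range _).bddAbove u


theorem two_le_of_not_adj [Fintype V] {G : SimpleGraph V} (hG : G.Connected) {a b : V}
    (hab : a ≠ b) (hn : ¬ G.Adj a b) : 2 ≤ ⨆ v, lam G v := by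
  classical
  -- take a vertex `w` at distance exactly two from `a`
  obtain ⟨w, hw⟩ : ∃ w, G.dist a w = 2 := by
    have hd : 2 ≤ G.dist a b := by
      have h1 : G.dist a b ≠ 0 := fun h => hab ((hG.dist_eq_zero_iff).1 h)
      have h2 : G.dist a b ≠ 1 := fun h => hn (dist_eq_one_iff_adj.1 h)
      omega
    -- descend along parents
    have : ∀ n : ℕ, ∀ c, G.dist a c = n + 2 → ∃ w, G.dist a w = 2 := by
      intro n
      induction n with
      | zero => intro c hc; exact ⟨c, hc⟩
      | succ n ih =>
        intro c hc
        have hca : c ≠ a := by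
          rintro rfl
          simp at hc
        obtain ⟨u, -, hu⟩ := exists_parent hG hca
        exact ih u (by omega)
    exact this (G.dist a b - 2) b (by omega)
  have hwa : w ≠ a := by
    rintro rfl
    simp at hw
  obtain ⟨u, huw, hu⟩ := exists_parent hG hwa
  have hau : G.Adj a u := dist_eq_one_iff_adj.1 (by omega)
  have hnaw : ¬ G.Adj a w := fun h => by
    have := dist_eq_one_iff_adj.2 h
    omega
  have : ({a, w} : Finset V).card ≤ lam G u := by
    apply card_le_lam
    · intro x hx y hy hxy hadj
      simp only [coe_insert, coe_singleton, Set.mem_insert_iff, Set.mem_singleton_iff] at hx hy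
      rcases hx with rfl | rfl <;> rcases hy with rfl | rfl
      · exact hxy rfl
      · exact hnaw hadj
      · exact hnaw hadj.symm
      · exact hxy rfl
    · intro x hx
      simp only [mem_insert, mem_singleton] at hx
      rcases hx with rfl | rfl
      · exact hau.symm
      · exact huw
  rw [card_pair hwa.symm] at this
  exact this.trans (lam_le_iSup G u)

theorem main [Fintype V] {G : SimpleGraph V} (hG : G.Connected) (v : V)
    (hL : 2 ≤ ⨆ v, lam G v) :
    G.indepNum ≤ 1 + dEven G v * ((⨆ v, lam G v) - 1) := by
  classical
  set L := ⨆ v, lam G v with hLdef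
  obtain ⟨I, hI⟩ := G.exists_isNIndepSet_indepNum
  have hIind := hI.isIndepSet
  have hIcard := hI.card_eq
  let E : Finset V := univ.filter (fun u => Even (G.dist v u))
  have hE : dEven G v = E.card := by
    unfold dEven
    rw [Nat.card_eq_fintype_card, Fintype.card_subtype]
  -- parents of odd members of `I`
  have hpar : ∀ w : V, w ∈ I \ E → ∃ u, G.Adj u w ∧ G.dist v w = G.dist v u + 1 := by
    intro w hw
    apply exists_parent hG
    rintro rfl
    simp [E] at hw
  choose! par hpar1 hpar2 using hpar
  have hmap : ∀ w ∈ I \ E, par w ∈ E \ I := by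
    intro w hw
    have h1 := hpar1 w hw
    have h2 := hpar2 w hw
    simp only [mem_sdiff, E, mem_filter, mem_univ, true_and, Nat.not_even_iff_odd] at hw ⊢
    refine ⟨?_, fun hmem => hIind hmem hw.1 h1.ne h1⟩
    have h3 := hw.2
    rw [h2] at h3
    by_contra h4
    rw [Nat.not_even_iff_odd] at h4
    exact (Nat.not_even_iff_odd.2 h3) (h4.add_one)
  have hfib : ∀ u ∈ E \ I, ((I \ E).filter (fun w => par w = u)).card ≤
      (L - 1) + (if u = v then 1 else 0) := by
    intro u hu
    have hfibind : G.IsIndepSet (((I \ E).filter (fun w => par w = u) : Finset V) : Set V) := by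
      intro x hx y hy hxy
      simp only [coe_filter, mem_sdiff, Set.mem_setOf_eq] at hx hy
      exact hIind hx.1.1 hy.1.1 hxy
    have hfibadj : ∀ w ∈ (I \ E).filter (fun w => par w = u), G.Adj u w := by
      intro w hw
      rw [mem_filter] at hw
      rw [← hw.2]
      exact hpar1 w hw.1
    by_cases huv : u = v
    · rw [if_pos huv]
      have := (card_le_lam hfibind hfibadj).trans (lam_le_iSup G u)
      omega
    · rw [if_neg huv]
      obtain ⟨w0, hw0, hd0⟩ := exists_parent hG huv
      have hdist : ∀ w ∈ (I \ E).filter (fun w => par w = u), G.dist v w = G.dist v w0 + 2 := by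
        intro w hw
        rw [mem_filter] at hw
        have := hpar2 w hw.1
        rw [hw.2] at this
        omega
      have hnot : w0 ∉ (I \ E).filter (fun w => par w = u) := by
        intro h
        have := hdist w0 h
        omega
      have hnadj : ∀ w ∈ (I \ E).filter (fun w => par w = u), ¬ G.Adj w0 w := by
        intro w hw h
        have h1 := hdist w hw
        have h2 : G.dist v w ≤ G.dist v w0 + G.dist w0 w := hG.dist_triangle
        have h3 : G.dist w0 w = 1 := dist_eq_one_iff_adj.2 h
        omega
      have hcard : (insert w0 ((I \ E).filter (fun w => par w = u))).card ≤ lam G u := by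
        apply card_le_lam
        · intro x hx y hy hxy hadj
          simp only [coe_insert, Set.mem_insert_iff, mem_coe] at hx hy
          rcases hx with rfl | hx <;> rcases hy with rfl | hy
          · exact hxy rfl
          · exact hnadj y hy hadj
          · exact hnadj x hx hadj.symm
          · exact hfibind hx hy hxy hadj
        · intro w hw
          rw [mem_insert] at hw
          rcases hw with rfl | hw
          · exact hw0.symm
          · exact hfibadj w hw
      rw [card_insert_of_notMem hnot] at hcard
      have := hcard.trans (lam_le_iSup G u)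
      omega
  have hodd : (I \ E).card ≤ (E \ I).card * (L - 1) + 1 := by
    rw [card_eq_sum_card_fiberwise hmap]
    calc ∑ u ∈ E \ I, ((I \ E).filter (fun w => par w = u)).card
        ≤ ∑ u ∈ E \ I, ((L - 1) + (if u = v then 1 else 0)) := sum_le_sum hfib
      _ = (E \ I).card * (L - 1) + ∑ u ∈ E \ I, (if u = v then 1 else 0) := by
        rw [sum_add_distrib, sum_const, smul_eq_mul]
      _ ≤ (E \ I).card * (L - 1) + 1 := by
        gcongr
        rw [sum_ite_eq' (E \ I) v (fun _ => 1)]
        split_ifs <;> simp
  have heven : (I ∩ E).card ≤ (I ∩ E).card * (L - 1) := Nat.le_mul_of_pos_right _ (by omega)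
  have hsplit1 : (I ∩ E).card + (I \ E).card = I.card := card_inter_add_card_sdiff I E
  have hsplit2 : (E ∩ I).card + (E \ I).card = E.card := card_inter_add_card_sdiff E I
  rw [inter_comm] at hsplit2
  rw [← hIcard, ← hsplit1, hE, ← hsplit2, add_mul]
  omega

/-- The conjectured inequality holds for every connected finite simple graph with at least two
vertices. -/
theorem result (V : Type*) [Fintype V] (G : SimpleGraph V) (hG : G.Connected)
    (hV : 2 ≤ Fintype.card V) :
    (G.indepNum : ℤ) ≤ 1 + (⨅ v, dEven G v : ℕ) * (((⨆ v, lam G v : ℕ) : ℤ) - 1) := by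
  classical
  haveI : Nonempty V := hG.nonempty
  haveI : Nontrivial V := Fintype.one_lt_card_iff_nontrivial.1 hV
  by_cases hL : 2 ≤ ⨆ v, lam G v
  · obtain ⟨v, hv⟩ : ∃ v, dEven G v = ⨅ v, dEven G v := by
      have := Nat.sInf_mem (Set.range_nonempty (dEven G))
      exact this
    have h := main hG v hL
    rw [hv] at h
    zify at h
    rw [Nat.cast_sub (by omega)] at h
    simpa using h
  · have hcomplete : ∀ a b : V, a ≠ b → G.Adj a b := by
      intro a b hab
      by_contra hn
      exact hL (two_le_of_not_adj hG hab hn)
    have h1 : G.indepNum ≤ 1 := by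
      obtain ⟨I, hI⟩ := G.exists_isNIndepSet_indepNum
      rw [← hI.card_eq]
      by_contra hlt
      obtain ⟨a, ha, b, hb, hab⟩ := one_lt_card.1 (not_le.1 hlt)
      exact hI.isIndepSet ha hb hab (hcomplete a b hab)
    have h2 : 1 ≤ ⨆ v, lam G v := by
      obtain ⟨a, b, hab⟩ := exists_pair_ne V
      refine le_trans ?_ (lam_le_iSup G a)
      have : ({b} : Finset V).card ≤ lam G a := by
        apply card_le_lam
        · simp [IsIndepSet]
        · intro w hw
          rw [mem_singleton] at hw
          rw [hw]
          exact hcomplete a b hab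
      simpa using this
    have h3 : (0 : ℤ) ≤ (⨅ v, dEven G v : ℕ) * (((⨆ v, lam G v : ℕ) : ℤ) - 1) := by
      apply mul_nonneg
      · positivity
      · have : (1 : ℤ) ≤ ((⨆ v, lam G v : ℕ) : ℤ) := by exact_mod_cast h2
        linarith
    have h4 : (G.indepNum : ℤ) ≤ 1 := by exact_mod_cast h1
    linarith

end Pool.Agent.Results.MP_c843e9_co.EvenDistanceBound
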